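import Mathlib
import Pool.Agent.Helper240.ZFM.R3

set_option autoImplicit false

open Filter Topology Set

namespace Pool.Agent.Helper22.HG

/-- complement of the union of five disjoint boxes is connected -/
theorem conn_compl {d e q X r : ℝ} (h0 : 0 < d) (h1 : d < e) (h2 : e ≤ X) (h3 : 2 * d < q)
    (h4 : e ≤ r) (K : Set ℂ)
    (hK : K = {u : ℂ | (-d ≤ u.re ∧ u.re ≤ d ∧ -d ≤ u.im ∧ u.im ≤ d) ∨
      (-r ≤ u.re ∧ u.re ≤ -e ∧ -d ≤ u.im ∧ u.im ≤ d) ∨
      (e ≤ u.re ∧ u.re ≤ X ∧ -d ≤ u.im ∧ u.im ≤ d) ∨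
      (-r ≤ u.re ∧ u.re ≤ X ∧ q - d ≤ u.im ∧ u.im ≤ q + d) ∨
      (-r ≤ u.re ∧ u.re ≤ X ∧ -q - d ≤ u.im ∧ u.im ≤ -q + d)}) : IsConnected Kᶜ := by
  set S1 : Set ℂ := {u | d < u.im} ∩ {u | u.im < q - d} with hS1
  set S2 : Set ℂ := {u | -(q - d) < u.im} ∩ {u | u.im < -d} with hS2
  set S3 : Set ℂ := {u | q + d < u.im} with hS3
  set S4 : Set ℂ := {u | u.im < -q - d} with hS4
  set S5 : Set ℂ := {u | X < u.re} with hS5
  set S6 : Set ℂ := {u | u.re < -r} with hS6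
  set S7 : Set ℂ := ({u | -e < u.re} ∩ {u | u.re < -d}) ∩ ({u | -(q - d) < u.im} ∩ {u | u.im < q - d}) with hS7
  set S8 : Set ℂ := ({u | d < u.re} ∩ {u | u.re < e}) ∩ ({u | -(q - d) < u.im} ∩ {u | u.im < q - d}) with hS8
  have c1 : IsPreconnected S1 := ((convex_halfSpace_im_gt d).inter (convex_halfSpace_im_lt (q - d))).isPreconnected
  have c2 : IsPreconnected S2 := ((convex_halfSpace_im_gt _).inter (convex_halfSpace_im_lt _)).isPreconnected
  have c3 : IsPreconnected S3 := (convex_halfSpace_im_gt _).isPreconnected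
  have c4 : IsPreconnected S4 := (convex_halfSpace_im_lt _).isPreconnected
  have c5 : IsPreconnected S5 := (convex_halfSpace_re_gt _).isPreconnected
  have c6 : IsPreconnected S6 := (convex_halfSpace_re_lt _).isPreconnected
  have c7 : IsPreconnected S7 := (((convex_halfSpace_re_gt _).inter (convex_halfSpace_re_lt _)).inter
    ((convex_halfSpace_im_gt _).inter (convex_halfSpace_im_lt _))).isPreconnected
  have c8 : IsPreconnected S8 := (((convex_halfSpace_re_gt _).inter (convex_halfSpace_re_lt _)).inter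
    ((convex_halfSpace_im_gt _).inter (convex_halfSpace_im_lt _))).isPreconnected
  have w51 : (⟨X + 1, q / 2⟩ : ℂ) ∈ S5 ∧ (⟨X + 1, q / 2⟩ : ℂ) ∈ S1 := by
    refine ⟨?_, ?_, ?_⟩ <;> simp [hS5] <;> linarith
  have w52 : (⟨X + 1, -(q / 2)⟩ : ℂ) ∈ S5 ∧ (⟨X + 1, -(q / 2)⟩ : ℂ) ∈ S2 := by
    refine ⟨?_, ?_, ?_⟩ <;> simp [hS5] <;> linarith
  have w53 : (⟨X + 1, q + d + 1⟩ : ℂ) ∈ S5 ∧ (⟨X + 1, q + d + 1⟩ : ℂ) ∈ S3 := by
    refine ⟨?_, ?_⟩ <;> simp [hS5, hS3]
  have w54 : (⟨X + 1, -q - d - 1⟩ : ℂ) ∈ S5 ∧ (⟨X + 1, -q - d - 1⟩ : ℂ) ∈ S4 := by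
    refine ⟨?_, ?_⟩ <;> simp [hS5, hS4]
  have w61 : (⟨-r - 1, q / 2⟩ : ℂ) ∈ S1 ∧ (⟨-r - 1, q / 2⟩ : ℂ) ∈ S6 := by
    refine ⟨⟨?_, ?_⟩, ?_⟩ <;> simp [hS6] <;> linarith
  have w71 : (⟨-(d + e) / 2, q / 2⟩ : ℂ) ∈ S1 ∧ (⟨-(d + e) / 2, q / 2⟩ : ℂ) ∈ S7 := by
    refine ⟨⟨?_, ?_⟩, ⟨?_, ?_⟩, ?_, ?_⟩ <;> simp <;> linarith
  have w81 : (⟨(d + e) / 2, q / 2⟩ : ℂ) ∈ S1 ∧ (⟨(d + e) / 2, q / 2⟩ : ℂ) ∈ S8 := by
    refine ⟨⟨?_, ?_⟩, ⟨?_, ?_⟩, ?_, ?_⟩ <;> simp <;> linarith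
  have u1 : IsPreconnected (S5 ∪ S1) := IsPreconnected.union _ w51.1 w51.2 c5 c1
  have u2 : IsPreconnected ((S5 ∪ S1) ∪ S2) :=
    IsPreconnected.union _ (mem_union_left _ w52.1) w52.2 u1 c2
  have u3 : IsPreconnected (((S5 ∪ S1) ∪ S2) ∪ S3) :=
    IsPreconnected.union _ (mem_union_left _ (mem_union_left _ w53.1)) w53.2 u2 c3
  have u4 : IsPreconnected ((((S5 ∪ S1) ∪ S2) ∪ S3) ∪ S4) :=
    IsPreconnected.union _ (mem_union_left _ (mem_union_left _ (mem_union_left _ w54.1))) w54.2 u3 c4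
  have u5 : IsPreconnected (((((S5 ∪ S1) ∪ S2) ∪ S3) ∪ S4) ∪ S6) :=
    IsPreconnected.union _ (mem_union_left _ (mem_union_left _ (mem_union_left _ (mem_union_right _ w61.1)))) w61.2 u4 c6
  have u6 : IsPreconnected ((((((S5 ∪ S1) ∪ S2) ∪ S3) ∪ S4) ∪ S6) ∪ S7) :=
    IsPreconnected.union _ (mem_union_left _ (mem_union_left _ (mem_union_left _ (mem_union_left _ (mem_union_right _ w71.1))))) w71.2 u5 c7
  have u7 : IsPreconnected (((((((S5 ∪ S1) ∪ S2) ∪ S3) ∪ S4) ∪ S6) ∪ S7) ∪ S8) :=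
    IsPreconnected.union _ (mem_union_left _ (mem_union_left _ (mem_union_left _ (mem_union_left _ (mem_union_left _ (mem_union_right _ w81.1)))))) w81.2 u6 c8
  have heq : Kᶜ = (((((((S5 ∪ S1) ∪ S2) ∪ S3) ∪ S4) ∪ S6) ∪ S7) ∪ S8) := by
    ext u
    rw [hK]
    simp only [mem_compl_iff, mem_setOf_eq, mem_union, hS1, hS2, hS3, hS4, hS5, hS6, hS7, hS8,
      mem_inter_iff]
    constructor
    · intro h
      push Not at h
      obtain ⟨k1, k2, k3, k4, k5⟩ := h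
      by_contra hcon
      simp only [not_or, not_and, not_lt] at hcon
      obtain ⟨⟨⟨⟨⟨⟨⟨m5, m1⟩, m2⟩, m3⟩, m4⟩, m6⟩, m7⟩, m8⟩ := hcon
      by_cases a1 : q - d ≤ u.im
      · have := k4 m6 m5 a1
        linarith
      push Not at a1
      by_cases a2 : u.im ≤ -q + d
      · have := k5 m6 m5 m4
        linarith
      push Not at a2
      have b1 : u.im ≤ d := by
        by_contra hh
        push Not at hh
        have := m1 hh
        linarith
      have b2 : -d ≤ u.im := by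
        by_contra hh
        push Not at hh
        have := m2 (by linarith)
        linarith
      rcases lt_or_ge u.re (-d) with c | c
      · have c' : u.re ≤ -e := by
          by_contra hh
          push Not at hh
          have := m7 ⟨hh, c⟩ (by linarith)
          linarith
        have := k2 m6 c' b2
        linarith
      · rcases lt_or_ge d u.re with c1 | c1
        · have c' : e ≤ u.re := by
            by_contra hh
            push Not at hh
            have := m8 ⟨c1, hh⟩ (by linarith)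
            linarith
          have := k3 c' m5 b2
          linarith
        · have := k1 c c1 b2
          linarith
    · rintro (((((((h | h) | h) | h) | h) | h) | h) | h) hcon
      all_goals
        rcases hcon with k | k | k | k | k
      all_goals
        obtain ⟨k1, k2, k3, k4⟩ := k
      all_goals first
        | linarith
        | (obtain ⟨h5, h6⟩ := h; linarith)
        | (obtain ⟨⟨h5, h6⟩, h7, h8⟩ := h; linarith)
  rw [heq]
  exact ⟨⟨_, Or.inl (Or.inl (Or.inl (Or.inl (Or.inl (Or.inl (Or.inl w51.1))))))⟩, u7⟩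

/-- the central box -/
def Db (d : ℝ) : Set ℂ := {u | -d ≤ u.re ∧ u.re ≤ d ∧ -d ≤ u.im ∧ u.im ≤ d}

/-- the four outer boxes -/
def Eb (d e q X r : ℝ) : Set ℂ := {u : ℂ |
      (-r ≤ u.re ∧ u.re ≤ -e ∧ -d ≤ u.im ∧ u.im ≤ d) ∨
      (e ≤ u.re ∧ u.re ≤ X ∧ -d ≤ u.im ∧ u.im ≤ d) ∨
      (-r ≤ u.re ∧ u.re ≤ X ∧ q - d ≤ u.im ∧ u.im ≤ q + d) ∨
      (-r ≤ u.re ∧ u.re ≤ X ∧ -q - d ≤ u.im ∧ u.im ≤ -q + d)}

theorem box_compact (a b c d : ℝ) : IsCompact {u : ℂ | a ≤ u.re ∧ u.re ≤ b ∧ c ≤ u.im ∧ u.im ≤ d} := by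
  have h := (isCompact_Icc (a := a) (b := b)).reProdIm (isCompact_Icc (a := c) (b := d))
  convert h using 1
  ext u
  simp only [Complex.mem_reProdIm, mem_Icc, Set.mem_ofPred_eq]
  tauto

theorem step {d e q X r : ℝ} (h0 : 0 < d) (h1 : d < e) (h2 : e ≤ X) (h3 : 2 * d < q)
    (h4 : e ≤ r) (P : Polynomial ℂ) {ε : ℝ} (hε : 0 < ε) : ∃ P' : Polynomial ℂ,
    (∀ u ∈ Db d, ‖P'.eval u - P.eval u‖ < ε) ∧ (∀ u ∈ Eb d e q X r, ‖P'.eval u‖ < ε) := by
  classical
  set K : Set ℂ := Db d ∪ Eb d e q X r with hKdef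
  have hK : IsCompact K := by
    have : K = {u : ℂ | -d ≤ u.re ∧ u.re ≤ d ∧ -d ≤ u.im ∧ u.im ≤ d} ∪
      ({u : ℂ | -r ≤ u.re ∧ u.re ≤ -e ∧ -d ≤ u.im ∧ u.im ≤ d} ∪
      ({u : ℂ | e ≤ u.re ∧ u.re ≤ X ∧ -d ≤ u.im ∧ u.im ≤ d} ∪
      ({u : ℂ | -r ≤ u.re ∧ u.re ≤ X ∧ q - d ≤ u.im ∧ u.im ≤ q + d} ∪
      {u : ℂ | -r ≤ u.re ∧ u.re ≤ X ∧ -q - d ≤ u.im ∧ u.im ≤ -q + d}))) := rfl
    rw [this]
    exact (box_compact _ _ _ _).union ((box_compact _ _ _ _).union ((box_compact _ _ _ _).union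
      ((box_compact _ _ _ _).union (box_compact _ _ _ _))))
  have hKc : IsConnected Kᶜ := conn_compl h0 h1 h2 h3 h4 K rfl
  set U1 : Set ℂ := ({u | -((d + e) / 2) < u.re} ∩ {u | u.re < (d + e) / 2}) ∩
    ({u | -(q / 2) < u.im} ∩ {u | u.im < q / 2}) with hU1
  set U2 : Set ℂ := ({u | u.re < -((d + e) / 2)} ∪ {u | (d + e) / 2 < u.re}) ∪
    ({u | u.im < -(q / 2)} ∪ {u | q / 2 < u.im}) with hU2
  have o1 : IsOpen U1 := ((isOpen_lt continuous_const Complex.continuous_re).inter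
    (isOpen_lt Complex.continuous_re continuous_const)).inter
    ((isOpen_lt continuous_const Complex.continuous_im).inter
    (isOpen_lt Complex.continuous_im continuous_const))
  have o2 : IsOpen U2 := ((isOpen_lt Complex.continuous_re continuous_const).union
    (isOpen_lt continuous_const Complex.continuous_re)).union
    ((isOpen_lt Complex.continuous_im continuous_const).union
    (isOpen_lt continuous_const Complex.continuous_im))
  have hD1 : Db d ⊆ U1 := by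
    rintro u ⟨k1, k2, k3, k4⟩
    refine ⟨⟨?_, ?_⟩, ?_, ?_⟩
    · show -((d + e) / 2) < u.re
      linarith
    · show u.re < (d + e) / 2
      linarith
    · show -(q / 2) < u.im
      linarith
    · show u.im < q / 2
      linarith
  have hE2 : Eb d e q X r ⊆ U2 := by
    rintro u (⟨k1, k2, k3, k4⟩ | ⟨k1, k2, k3, k4⟩ | ⟨k1, k2, k3, k4⟩ | ⟨k1, k2, k3, k4⟩)
    · refine Or.inl (Or.inl ?_)
      show u.re < -((d + e) / 2)
      linarith
    · refine Or.inl (Or.inr ?_)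
      show (d + e) / 2 < u.re
      linarith
    · refine Or.inr (Or.inr ?_)
      show q / 2 < u.im
      linarith
    · refine Or.inr (Or.inl ?_)
      show u.im < -(q / 2)
      linarith
  have hdis : ∀ u ∈ U2, u ∉ U1 := by
    rintro u h ⟨⟨k1, k2⟩, k3, k4⟩
    have k1' : -((d + e) / 2) < u.re := k1
    have k2' : u.re < (d + e) / 2 := k2
    have k3' : -(q / 2) < u.im := k3
    have k4' : u.im < q / 2 := k4
    rcases h with (h | h) | (h | h)
    · have h' : u.re < -((d + e) / 2) := h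
      linarith
    · have h' : (d + e) / 2 < u.re := h
      linarith
    · have h' : u.im < -(q / 2) := h
      linarith
    · have h' : q / 2 < u.im := h
      linarith
  set f : ℂ → ℂ := fun u => if u ∈ U1 then P.eval u else 0 with hf
  have hfd : DifferentiableOn ℂ f (U1 ∪ U2) := by
    rintro u (hu | hu)
    · have h5 : f =ᶠ[𝓝 u] fun u => P.eval u := by
        filter_upwards [o1.mem_nhds hu] with w hw
        simp [hf, hw]
      exact (P.differentiableAt.congr_of_eventuallyEq h5).differentiableWithinAt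
    · have h5 : f =ᶠ[𝓝 u] fun _ => (0 : ℂ) := by
        filter_upwards [o2.mem_nhds hu] with w hw
        simp [hf, hdis w hw]
      exact ((differentiableAt_const _).congr_of_eventuallyEq h5).differentiableWithinAt
  obtain ⟨p, hp⟩ := ZFM.runge hK hKc (o1.union o2) (union_subset_union hD1 hE2) f hfd ε hε
  refine ⟨p, fun u hu => ?_, fun u hu => ?_⟩
  · have h5 := hp u (Or.inl hu)
    have h6 : f u = P.eval u := by simp [hf, hD1 hu]
    rw [h6, norm_sub_rev] at h5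
    exact h5
  · have h5 := hp u (Or.inr hu)
    have h6 : f u = 0 := by simp [hf, hdis u (hE2 hu)]
    rw [h6, zero_sub, norm_neg] at h5
    exact h5

end Pool.Agent.Helper22.HG
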