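import Mathlib
import Pool.Agent.Helper22.HG.H1

set_option autoImplicit false

open Filter Topology Set

namespace Pool.Agent.Helper22.HG

/-- the scales -/
noncomputable def q : ℕ → ℝ
  | 0 => 100
  | n + 1 => q n ^ 8

noncomputable def d : ℕ → ℝ
  | 0 => 1
  | n + 1 => q n ^ 4 + q n ^ 2 / 4

noncomputable def e : ℕ → ℝ
  | 0 => 2
  | n + 1 => q n ^ 4 + q n ^ 2 / 2

theorem q_ge : ∀ n, 100 ≤ q n
  | 0 => le_refl _
  | n + 1 => by
    have h := q_ge n
    have h1 : q n ^ 1 ≤ q n ^ 8 := pow_le_pow_right₀ (by linarith) (by norm_num)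
    show 100 ≤ q n ^ 8
    rw [pow_one] at h1
    linarith

theorem q_pos (n : ℕ) : 0 < q n := by linarith [q_ge n]

theorem q_succ (n : ℕ) : q (n + 1) = q n ^ 8 := rfl

theorem q_step (n : ℕ) : 100 * q n ≤ q (n + 1) := by
  have h := q_ge n
  have h1 : q n ^ 2 ≤ q n ^ 8 := pow_le_pow_right₀ (by linarith) (by norm_num)
  rw [q_succ]
  nlinarith

theorem q_mono : Monotone q := monotone_nat_of_le_succ fun n => by
  have := q_step n
  have := q_pos n
  linarith

theorem q_lb (n : ℕ) : 100 * ((n : ℝ) + 1) ≤ q n := by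
  induction n with
  | zero => simp [q]
  | succ n ih =>
    have := q_step n
    push_cast
    nlinarith

theorem q_tendsto : Tendsto q atTop atTop := by
  apply tendsto_atTop_mono (f := fun n : ℕ => (n : ℝ)) _ tendsto_natCast_atTop_atTop
  intro n
  have := q_lb n
  have h : (0 : ℝ) ≤ n := Nat.cast_nonneg n
  show (n : ℝ) ≤ q n
  linarith

theorem q2 (n : ℕ) : 100 * q n ≤ q n ^ 2 := by
  have := q_ge n
  nlinarith

theorem q4 (n : ℕ) : 10000 * q n ^ 2 ≤ q n ^ 4 := by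
  have h := q2 n
  have h1 := q_pos n
  have h2 : q n ^ 4 = q n ^ 2 * q n ^ 2 := by ring
  rw [h2]
  have h3 := q_ge n
  nlinarith [pow_pos h1 2]

theorem q8 (n : ℕ) : 100000000 * q n ^ 4 ≤ q n ^ 8 := by
  have h := q4 n
  have h0 := q2 n
  have h1 := q_pos n
  have h2 : q n ^ 8 = q n ^ 4 * q n ^ 4 := by ring
  rw [h2]
  have h3 := q_ge n
  nlinarith [pow_pos h1 4]

theorem d_ge : ∀ n, 1 ≤ d n
  | 0 => le_refl _
  | n + 1 => by
    show 1 ≤ q n ^ 4 + q n ^ 2 / 4
    have := q_ge n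
    have := q4 n
    have := q2 n
    linarith

theorem d_lt_e : ∀ n, d n < e n
  | 0 => by norm_num [d, e]
  | n + 1 => by
    show q n ^ 4 + q n ^ 2 / 4 < q n ^ 4 + q n ^ 2 / 2
    have := q_ge n
    have := q2 n
    linarith

theorem e_le : ∀ n, 40 * e n ≤ q n
  | 0 => by norm_num [e, q]
  | n + 1 => by
    show 40 * (q n ^ 4 + q n ^ 2 / 2) ≤ q n ^ 8
    have := q_ge n
    have := q2 n
    have := q4 n
    have := q8 n
    linarith

theorem e_pos (n : ℕ) : 0 < e n := by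
  have := d_ge n
  have := d_lt_e n
  linarith

theorem d_succ (n : ℕ) : d (n + 1) = q n ^ 4 + q n ^ 2 / 4 := rfl

theorem e_succ (n : ℕ) : e (n + 1) = q n ^ 4 + q n ^ 2 / 2 := rfl

theorem q_le_d (n : ℕ) : q n ^ 2 ≤ d (n + 1) := by
  rw [d_succ]
  have := q4 n
  have := q2 n
  have := q_ge n
  linarith

theorem d_step (n : ℕ) : q n + d n ≤ d (n + 1) := by
  have := q_le_d n
  have := e_le n
  have := d_lt_e n
  have := q2 n
  have := q_pos n
  have := e_pos n
  linarith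

theorem d_mono : Monotone d := monotone_nat_of_le_succ fun n => by
  have := d_step n
  have := q_pos n
  linarith

theorem d_tendsto : Tendsto d atTop atTop := by
  rw [← tendsto_add_atTop_iff_nat 1]
  apply tendsto_atTop_mono (f := q) _ q_tendsto
  intro n
  have := q_le_d n
  have := q2 n
  have := q_pos n
  show q n ≤ d (n + 1)
  linarith

/-- central box number `n` -/
def D (n : ℕ) : Set ℂ := Db (d n)

/-- outer boxes number `n` -/
def E (n : ℕ) : Set ℂ := Eb (d n) (e n) (q n) (q n ^ 2) (d (n + 1))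

theorem E_sub (n : ℕ) : E n ⊆ D (n + 1) := by
  have h1 := d_step n
  have h2 := q_le_d n
  have h3 := e_le n
  have h4 := d_lt_e n
  have h5 := d_ge n
  have h6 := q_pos n
  rintro u (⟨k1, k2, k3, k4⟩ | ⟨k1, k2, k3, k4⟩ | ⟨k1, k2, k3, k4⟩ | ⟨k1, k2, k3, k4⟩)
  all_goals
    refine ⟨?_, ?_, ?_, ?_⟩ <;> linarith

theorem D_mono {m n : ℕ} (h : m ≤ n) : D m ⊆ D n := by
  have := d_mono h
  rintro u ⟨k1, k2, k3, k4⟩
  refine ⟨?_, ?_, ?_, ?_⟩ <;> linarith

theorem mem_D_of {u : ℂ} {n : ℕ} (h : ‖u‖ ≤ d n) : u ∈ D n := by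
  have h1 := Complex.abs_re_le_norm u
  have h2 := Complex.abs_im_le_norm u
  have h3 := abs_le.1 (h1.trans h)
  have h4 := abs_le.1 (h2.trans h)
  exact ⟨h3.1, h3.2, h4.1, h4.2⟩

noncomputable def η (n : ℕ) : ℝ := Real.exp (-(q n) ^ 2) * (1 / 2) ^ (n + 1)

theorem η_pos (n : ℕ) : 0 < η n := by
  unfold η
  positivity

theorem stepN (n : ℕ) (P : Polynomial ℂ) : ∃ P' : Polynomial ℂ,
    (∀ u ∈ D n, ‖P'.eval u - P.eval u‖ < η n) ∧ (∀ u ∈ E n, ‖P'.eval u‖ < η n) := by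
  have h1 := d_step n
  have h2 := q_le_d n
  have h3 := e_le n
  have h4 := d_lt_e n
  have h5 := d_ge n
  have h6 := q_pos n
  have h7 := q2 n
  have h8 := e_pos n
  exact step (by linarith) h4 (by linarith) (by linarith) (by linarith) P (η_pos n)

noncomputable def Pp : ℕ → Polynomial ℂ
  | 0 => 1
  | n + 1 => (stepN n (Pp n)).choose

theorem Pp_D (n : ℕ) {u : ℂ} (hu : u ∈ D n) : ‖(Pp (n + 1)).eval u - (Pp n).eval u‖ < η n :=
  (stepN n (Pp n)).choose_spec.1 u hu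

theorem Pp_E (n : ℕ) {u : ℂ} (hu : u ∈ E n) : ‖(Pp (n + 1)).eval u‖ < η n :=
  (stepN n (Pp n)).choose_spec.2 u hu

theorem exp_q_anti {m n : ℕ} (h : m ≤ n) : Real.exp (-(q n) ^ 2) ≤ Real.exp (-(q m) ^ 2) := by
  apply Real.exp_le_exp.2
  have h1 := q_mono h
  have h2 := q_pos m
  nlinarith

theorem Pp_diff {n m : ℕ} (h : n ≤ m) {u : ℂ} (hu : u ∈ D n) :
    ‖(Pp m).eval u - (Pp n).eval u‖ ≤ Real.exp (-(q n) ^ 2) * ((1 / 2) ^ n - (1 / 2) ^ m) := by
  induction m, h using Nat.le_induction with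
  | base => simp
  | succ m hm ih =>
    have h1 := Pp_D m (D_mono hm hu)
    have h2 : (Pp (m + 1)).eval u - (Pp n).eval u =
      ((Pp (m + 1)).eval u - (Pp m).eval u) + ((Pp m).eval u - (Pp n).eval u) := by ring
    rw [h2]
    have h3 := norm_add_le ((Pp (m + 1)).eval u - (Pp m).eval u) ((Pp m).eval u - (Pp n).eval u)
    have h4 : η m ≤ Real.exp (-(q n) ^ 2) * (1 / 2) ^ (m + 1) :=
      mul_le_mul_of_nonneg_right (exp_q_anti hm) (by positivity)
    have h5 : Real.exp (-(q n) ^ 2) * ((1 / 2) ^ n - (1 / 2) ^ (m + 1)) =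
      Real.exp (-(q n) ^ 2) * ((1 / 2) ^ n - (1 / 2) ^ m) + Real.exp (-(q n) ^ 2) * (1 / 2) ^ (m + 1) := by
      ring
    rw [h5]
    linarith

theorem Pp_diff' {n m : ℕ} (h : n ≤ m) {u : ℂ} (hu : u ∈ D n) :
    ‖(Pp m).eval u - (Pp n).eval u‖ ≤ Real.exp (-(q n) ^ 2) * (1 / 2) ^ n := by
  refine (Pp_diff h hu).trans ?_
  apply mul_le_mul_of_nonneg_left _ (Real.exp_pos _).le
  have : (0 : ℝ) ≤ (1 / 2) ^ m := by positivity
  linarith

theorem exp_le_one (n : ℕ) : Real.exp (-(q n) ^ 2) ≤ 1 := by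
  rw [← Real.exp_zero]
  apply Real.exp_le_exp.2
  have := q_pos n
  nlinarith

theorem exists_lim (u : ℂ) : ∃ l, Tendsto (fun n => (Pp n).eval u) atTop (𝓝 l) := by
  obtain ⟨N, hN⟩ := (d_tendsto.eventually_ge_atTop ‖u‖).exists
  have hu := mem_D_of hN
  have hc : CauchySeq (fun n => (Pp (n + N)).eval u) := by
    apply cauchySeq_of_le_tendsto_0' (fun n : ℕ => ((1 : ℝ) / 2) ^ (n + N))
    · intro n m hnm
      rw [dist_comm, dist_eq_norm]
      refine (Pp_diff' (by omega) (D_mono (by omega) hu)).trans ?_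
      have h1 := exp_le_one (n + N)
      have h2 : (0 : ℝ) ≤ (1 / 2) ^ (n + N) := by positivity
      nlinarith
    · have h1 := tendsto_pow_atTop_nhds_zero_of_lt_one (r := (1 : ℝ) / 2) (by norm_num) (by norm_num)
      exact (tendsto_add_atTop_iff_nat N).2 h1
  obtain ⟨l, hl⟩ := cauchySeq_tendsto_of_complete hc
  exact ⟨l, (tendsto_add_atTop_iff_nat N).1 hl⟩

noncomputable def f0 (u : ℂ) : ℂ := (exists_lim u).choose

theorem f0_lim (u : ℂ) : Tendsto (fun n => (Pp n).eval u) atTop (𝓝 (f0 u)) :=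
  (exists_lim u).choose_spec

theorem f0_sub {n : ℕ} {u : ℂ} (hu : u ∈ D n) :
    ‖f0 u - (Pp n).eval u‖ ≤ Real.exp (-(q n) ^ 2) * (1 / 2) ^ n := by
  have h1 : Tendsto (fun m => ‖(Pp m).eval u - (Pp n).eval u‖) atTop
      (𝓝 ‖f0 u - (Pp n).eval u‖) := ((f0_lim u).sub_const _).norm
  apply le_of_tendsto h1
  filter_upwards [eventually_ge_atTop n] with m hm
  exact Pp_diff' hm hu

theorem f0_E {n : ℕ} {u : ℂ} (hu : u ∈ E n) : ‖f0 u‖ ≤ Real.exp (-(q n) ^ 2) := by
  have h1 := f0_sub (E_sub n hu)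
  have h2 := Pp_E n hu
  have h3 : f0 u = (f0 u - (Pp (n + 1)).eval u) + (Pp (n + 1)).eval u := by ring
  rw [h3]
  have h4 := norm_add_le (f0 u - (Pp (n + 1)).eval u) ((Pp (n + 1)).eval u)
  have h5 : Real.exp (-(q (n + 1)) ^ 2) * (1 / 2) ^ (n + 1) ≤ Real.exp (-(q n) ^ 2) * (1 / 2) ^ (n + 1) :=
    mul_le_mul_of_nonneg_right (exp_q_anti (Nat.le_succ n)) (by positivity)
  have h6 : η n = Real.exp (-(q n) ^ 2) * (1 / 2) ^ (n + 1) := rfl
  have h7 : ((1 : ℝ) / 2) ^ (n + 1) ≤ 1 / 2 := by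
    rw [pow_succ]
    have : ((1 : ℝ) / 2) ^ n ≤ 1 := pow_le_one₀ (by norm_num) (by norm_num)
    linarith
  have h8 := Real.exp_pos (-(q n) ^ 2)
  nlinarith

theorem f0_zero : f0 0 ≠ 0 := by
  intro h
  have h1 := f0_sub (n := 0) (u := 0) (mem_D_of (by simp [d]))
  rw [h] at h1
  have h2 : (Pp 0).eval 0 = (1 : ℂ) := by simp [Pp]
  rw [h2] at h1
  simp only [zero_sub, norm_neg, norm_one, pow_zero, mul_one] at h1
  have h3 : Real.exp (-(q 0) ^ 2) < Real.exp 0 := by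
    apply Real.exp_lt_exp.2
    have := q_pos 0
    nlinarith
  rw [Real.exp_zero] at h3
  linarith

theorem f0_entire : Differentiable ℂ f0 := by
  have hT : TendstoLocallyUniformlyOn (fun n u => (Pp n).eval u) f0 atTop (univ : Set ℂ) := by
    rw [Metric.tendstoLocallyUniformlyOn_iff]
    intro ε hε u _
    obtain ⟨N, hN⟩ := (d_tendsto.eventually_ge_atTop (‖u‖ + 1)).exists
    refine ⟨Metric.ball u 1, mem_nhdsWithin_of_mem_nhds (Metric.ball_mem_nhds u one_pos), ?_⟩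
    have h1 := tendsto_pow_atTop_nhds_zero_of_lt_one (r := (1 : ℝ) / 2) (by norm_num) (by norm_num)
    filter_upwards [h1.eventually_lt_const hε, eventually_ge_atTop N] with n hn hnN w hw
    have hwD : w ∈ D n := by
      apply mem_D_of
      have h2 : ‖w‖ ≤ ‖u‖ + 1 := by
        have h3 : w = u + (w - u) := by ring
        rw [mem_ball_iff_norm] at hw
        rw [h3]
        exact (norm_add_le _ _).trans (by linarith)
      exact h2.trans (hN.trans (d_mono hnN))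
    rw [dist_eq_norm]
    refine lt_of_le_of_lt (f0_sub hwD) ?_
    have h4 := exp_le_one n
    have h5 : (0 : ℝ) ≤ (1 / 2) ^ n := by positivity
    nlinarith
  have h := hT.differentiableOn (Eventually.of_forall fun n => (Pp n).differentiable.differentiableOn)
    isOpen_univ
  exact differentiableOn_univ.1 h

end Pool.Agent.Helper22.HG
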