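import Mathlib
import Pool.Agent.Helper22.HG.H2

set_option autoImplicit false

open Filter Topology Set

namespace Pool.Agent.Helper22.HG

/-- the negative real half-line with gaps -/
def AA : Set ℂ := {u | u.im = 0 ∧ u.re ≤ 0 ∧ ∀ n,
  ¬ (q n ^ 4 < -u.re ∧ -u.re < q n ^ 4 + q n ^ 2) ∧ 2 * e n ≤ |-u.re - q n|}

theorem zero_mem : (0 : ℂ) ∈ AA := by
  refine ⟨rfl, le_refl _, fun n => ⟨?_, ?_⟩⟩
  · rintro ⟨h, -⟩
    simp only [Complex.zero_re, neg_zero] at h
    have := q_pos n
    have h2 : 0 < q n ^ 4 := by positivity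
    linarith
  · simp only [Complex.zero_re, neg_zero, zero_sub, abs_neg]
    have h1 := e_le n
    have h2 := q_pos n
    have h3 := e_pos n
    rw [abs_of_pos h2]
    linarith

/-- points of `AA` far to the left, moved a little, lie in later outer boxes -/
theorem far {a τ : ℂ} (ha : a ∈ AA) {N : ℕ} (hτ : ‖τ‖ ≤ q N ^ 2 / 4) (hx : q N ^ 4 < -a.re) :
    ‖f0 (a + τ)‖ ≤ Real.exp (-(q N) ^ 2) := by
  classical
  have hex : ∃ n, -a.re ≤ q n ^ 4 := by
    obtain ⟨n, hn⟩ := (q_tendsto.eventually_ge_atTop (-a.re)).exists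
    refine ⟨n, hn.trans ?_⟩
    have := q_ge n
    have := q2 n
    have := q4 n
    linarith
  have hspec := Nat.find_spec hex
  have hmin := fun m => Nat.find_min (m := m) hex
  set M' := Nat.find hex with hM'
  have hNM : N < M' := by
    by_contra hcon
    push Not at hcon
    have h1 : q M' ^ 4 ≤ q N ^ 4 := pow_le_pow_left₀ (q_pos _).le (q_mono hcon) 4
    linarith
  obtain ⟨M, hM⟩ : ∃ M, M' = M + 1 := ⟨M' - 1, by omega⟩
  rw [hM] at hspec hNM
  have h1 : q M ^ 4 < -a.re := by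
    have := hmin M (by omega)
    push Not at this
    exact this
  obtain ⟨ha1, ha2, ha3⟩ := ha
  have h2 : q M ^ 4 + q M ^ 2 ≤ -a.re := by
    by_contra hcon
    push Not at hcon
    exact (ha3 M).1 ⟨h1, hcon⟩
  have hNM' : N ≤ M := by omega
  have h3 : q N ^ 2 ≤ q M ^ 2 := pow_le_pow_left₀ (q_pos _).le (q_mono hNM') 2
  have h4 : q M ^ 2 ≤ q (M + 1) ^ 2 := pow_le_pow_left₀ (q_pos _).le (q_mono (Nat.le_succ M)) 2
  have h5 := abs_le.1 ((Complex.abs_re_le_norm τ).trans hτ)
  have h6 := abs_le.1 ((Complex.abs_im_le_norm τ).trans hτ)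
  have h7 := q4 M
  have h8 := q_pos M
  have h9 : 0 < q M ^ 2 := by positivity
  have hE : a + τ ∈ E (M + 1) := by
    refine Or.inl ⟨?_, ?_, ?_, ?_⟩
    · rw [d_succ, Complex.add_re]
      linarith
    · rw [e_succ, Complex.add_re]
      linarith
    · rw [d_succ, Complex.add_im, ha1]
      linarith
    · rw [d_succ, Complex.add_im, ha1]
      linarith
  exact (f0_E hE).trans (exp_q_anti (by omega))

/-- translation by (almost) `± i q` -/
theorem dec_im {a τ : ℂ} (ha : a ∈ AA) {N : ℕ} (hτ : ‖τ‖ ≤ q N ^ 2 / 4) {σ : ℝ}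
    (hσ : σ = 1 ∨ σ = -1) (hi : |τ.im - σ * q N| ≤ d N) :
    ‖f0 (a + τ)‖ ≤ Real.exp (-(q N) ^ 2) := by
  rcases lt_or_ge (q N ^ 4) (-a.re) with hx | hx
  · exact far ha hτ hx
  obtain ⟨ha1, ha2, ha3⟩ := ha
  have h5 := abs_le.1 ((Complex.abs_re_le_norm τ).trans hτ)
  have hi' := abs_le.1 hi
  have h9 : 0 < q N ^ 2 := by
    have := q_pos N
    positivity
  apply f0_E (n := N)
  rcases hσ with rfl | rfl
  · refine Or.inr (Or.inr (Or.inl ⟨?_, ?_, ?_, ?_⟩))
    · rw [d_succ, Complex.add_re]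
      linarith
    · rw [Complex.add_re]
      linarith
    · rw [Complex.add_im, ha1]
      linarith
    · rw [Complex.add_im, ha1]
      linarith
  · refine Or.inr (Or.inr (Or.inr ⟨?_, ?_, ?_, ?_⟩))
    · rw [d_succ, Complex.add_re]
      linarith
    · rw [Complex.add_re]
      linarith
    · rw [Complex.add_im, ha1]
      linarith
    · rw [Complex.add_im, ha1]
      linarith

/-- translation by (almost) `± q` -/
theorem dec_re {a τ : ℂ} (ha : a ∈ AA) {N : ℕ} {σ : ℝ}
    (hσ : σ = 1 ∨ σ = -1) (hi : |τ.im| ≤ d N) (hr : |τ.re - σ * q N| ≤ e N) :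
    ‖f0 (a + τ)‖ ≤ Real.exp (-(q N) ^ 2) := by
  have hi' := abs_le.1 hi
  have hr' := abs_le.1 hr
  have c1 := e_le N
  have c2 := q2 N
  have c3 := q_pos N
  have c4 := e_pos N
  have c5 := d_lt_e N
  have c6 := q4 N
  have hτ : ‖τ‖ ≤ q N ^ 2 / 4 := by
    have h1 := Complex.norm_le_abs_re_add_abs_im τ
    have h2 : |τ.re| ≤ q N + e N := by
      rw [abs_le]
      rcases hσ with rfl | rfl <;> constructor <;> linarith
    linarith
  rcases lt_or_ge (q N ^ 4) (-a.re) with hx | hx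
  · exact far ha hτ hx
  obtain ⟨ha1, ha2, ha3⟩ := ha
  apply f0_E (n := N)
  have h5 := (ha3 N).2
  rcases hσ with rfl | rfl
  · rcases le_abs.1 h5 with h6 | h6
    · refine Or.inl ⟨?_, ?_, ?_, ?_⟩
      · rw [d_succ, Complex.add_re]
        linarith
      · rw [Complex.add_re]
        linarith
      · rw [Complex.add_im, ha1]
        linarith
      · rw [Complex.add_im, ha1]
        linarith
    · refine Or.inr (Or.inl ⟨?_, ?_, ?_, ?_⟩)
      · rw [Complex.add_re]
        linarith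
      · rw [Complex.add_re]
        linarith
      · rw [Complex.add_im, ha1]
        linarith
      · rw [Complex.add_im, ha1]
        linarith
  · refine Or.inl ⟨?_, ?_, ?_, ?_⟩
    · rw [d_succ, Complex.add_re]
      linarith
    · rw [Complex.add_re]
      linarith
    · rw [Complex.add_im, ha1]
      linarith
    · rw [Complex.add_im, ha1]
      linarith

/-- number of steps -/
noncomputable def kk (z : ℂ) (N : ℕ) : ℕ :=
  if z.im = 0 then ⌈q N / |z.re|⌉₊ else ⌈q N / |z.im|⌉₊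

theorem ceil_near {x y : ℝ} (hx : 0 < x) (hy : 0 < y) :
    |(⌈x / y⌉₊ : ℝ) * y - x| ≤ y := by
  have h1 := Nat.le_ceil (x / y)
  have h2 := Nat.ceil_lt_add_one (show 0 ≤ x / y by positivity)
  rw [div_le_iff₀ hy] at h1
  rw [← sub_lt_iff_lt_add, lt_div_iff₀ hy] at h2
  rw [abs_le]
  constructor <;> linarith

theorem kk_le (z : ℂ) (hz : z ≠ 0) : ∃ C : ℝ, 0 ≤ C ∧ ∀ N, (kk z N : ℝ) ≤ C * q N := by
  unfold kk
  split_ifs with h
  · have hz' : 0 < |z.re| := by
      rw [abs_pos]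
      intro h'
      exact hz (Complex.ext h' h)
    refine ⟨1 / |z.re| + 1, by positivity, fun N => ?_⟩
    have h2 := Nat.ceil_lt_add_one (show 0 ≤ q N / |z.re| by have := q_pos N; positivity)
    have := q_ge N
    have h3 : q N / |z.re| = 1 / |z.re| * q N := by ring
    nlinarith
  · have hz' : 0 < |z.im| := abs_pos.2 h
    refine ⟨1 / |z.im| + 1, by positivity, fun N => ?_⟩
    have h2 := Nat.ceil_lt_add_one (show 0 ≤ q N / |z.im| by have := q_pos N; positivity)
    have := q_ge N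
    have h3 : q N / |z.im| = 1 / |z.im| * q N := by ring
    nlinarith

/-- the main decay estimate -/
theorem decay0 (z : ℂ) (hz : z ≠ 0) (c : ℝ) : ∃ N₀ : ℕ, ∀ N, N₀ ≤ N → ∀ σ : ℝ,
    (σ = 1 ∨ σ = -1) → ∀ a ∈ AA, ∀ τ : ℂ, ‖τ - ((σ * kk z N : ℝ) : ℂ) * z‖ ≤ c →
    ‖f0 (a + τ)‖ ≤ Real.exp (-(q N) ^ 2) := by
  obtain ⟨C, hC, hk⟩ := kk_le z hz
  obtain ⟨N₀, hN₀⟩ := (((d_tendsto.eventually_ge_atTop (c + ‖z‖)).and
    (q_tendsto.eventually_ge_atTop (4 * (c + C * ‖z‖))))).exists_forall_of_atTop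
  refine ⟨N₀, fun N hN σ hσ a ha τ hτ => ?_⟩
  obtain ⟨g1, g2⟩ := hN₀ N hN
  have hσ1 : |σ| = 1 := by rcases hσ with rfl | rfl <;> simp
  have c0 : 0 ≤ c := (norm_nonneg _).trans hτ
  have hre := (Complex.abs_re_le_norm (τ - ((σ * kk z N : ℝ) : ℂ) * z)).trans hτ
  have him := (Complex.abs_im_le_norm (τ - ((σ * kk z N : ℝ) : ℂ) * z)).trans hτ
  rw [Complex.sub_re, Complex.re_ofReal_mul] at hre
  rw [Complex.sub_im, Complex.im_ofReal_mul] at him
  by_cases h : z.im = 0
  · have hz' : 0 < |z.re| := by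
      rw [abs_pos]
      intro h'
      exact hz (Complex.ext h' h)
    have hkk : (kk z N : ℝ) = ⌈q N / |z.re|⌉₊ := by unfold kk; rw [if_pos h]
    have h1 := ceil_near (q_pos N) hz'
    rw [← hkk] at h1
    have h2 : |z.re| ≤ ‖z‖ := Complex.abs_re_le_norm z
    -- sign of z.re
    obtain ⟨s, hs, hsz⟩ : ∃ s : ℝ, (s = 1 ∨ s = -1) ∧ z.re = s * |z.re| := by
      rcases le_or_gt 0 z.re with h3 | h3
      · exact ⟨1, Or.inl rfl, by rw [abs_of_nonneg h3, one_mul]⟩
      · exact ⟨-1, Or.inr rfl, by rw [abs_of_neg h3]; ring⟩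
    have hss : σ * s = 1 ∨ σ * s = -1 := by
      rcases hσ with rfl | rfl <;> rcases hs with rfl | rfl <;> norm_num
    apply dec_re ha hss
    · rw [h, mul_zero, sub_zero] at him
      have := norm_nonneg z
      linarith
    · have hc := d_lt_e N
      have h4 : |σ * s| = 1 := by rcases hss with h | h <;> rw [h] <;> simp
      have h5 : τ.re - σ * s * q N = (τ.re - σ * kk z N * z.re) +
          (σ * s) * (kk z N * |z.re| - q N) := by
        have : σ * kk z N * z.re = σ * s * (kk z N * |z.re|) := by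
          rw [hsz, abs_mul, abs_abs]
          rcases hs with rfl | rfl <;> simp <;> ring
        rw [this]
        ring
      rw [h5]
      refine (abs_add_le _ _).trans ?_
      rw [abs_mul, h4, one_mul]
      linarith
  · have hz' : 0 < |z.im| := abs_pos.2 h
    have hkk : (kk z N : ℝ) = ⌈q N / |z.im|⌉₊ := by unfold kk; rw [if_neg h]
    have h1 := ceil_near (q_pos N) hz'
    rw [← hkk] at h1
    have h2 : |z.im| ≤ ‖z‖ := Complex.abs_im_le_norm z
    obtain ⟨s, hs, hsz⟩ : ∃ s : ℝ, (s = 1 ∨ s = -1) ∧ z.im = s * |z.im| := by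
      rcases le_or_gt 0 z.im with h3 | h3
      · exact ⟨1, Or.inl rfl, by rw [abs_of_nonneg h3, one_mul]⟩
      · exact ⟨-1, Or.inr rfl, by rw [abs_of_neg h3]; ring⟩
    have hss : σ * s = 1 ∨ σ * s = -1 := by
      rcases hσ with rfl | rfl <;> rcases hs with rfl | rfl <;> norm_num
    refine dec_im ha ?_ hss ?_
    · have h3 : τ = (τ - ((σ * kk z N : ℝ) : ℂ) * z) + ((σ * kk z N : ℝ) : ℂ) * z := by ring
      have h4 : ‖τ‖ ≤ c + kk z N * ‖z‖ := by
        rw [h3]
        refine (norm_add_le _ _).trans ?_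
        rw [norm_mul, Complex.norm_real, Real.norm_eq_abs, abs_mul, hσ1, one_mul, Nat.abs_cast]
        linarith
      have h5 := hk N
      have h6 : (kk z N : ℝ) * ‖z‖ ≤ C * q N * ‖z‖ :=
        mul_le_mul_of_nonneg_right h5 (norm_nonneg _)
      have h7 := q_ge N
      have h8 : 4 * (c + C * ‖z‖) * q N ≤ q N * q N := mul_le_mul_of_nonneg_right g2 (q_pos N).le
      nlinarith
    · have h4 : |σ * s| = 1 := by rcases hss with h | h <;> rw [h] <;> simp
      have h5 : τ.im - σ * s * q N = (τ.im - σ * kk z N * z.im) +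
          (σ * s) * (kk z N * |z.im| - q N) := by
        have : σ * kk z N * z.im = σ * s * (kk z N * |z.im|) := by
          rw [hsz, abs_mul, abs_abs]
          rcases hs with rfl | rfl <;> simp <;> ring
        rw [this]
        ring
      rw [h5]
      refine (abs_add_le _ _).trans ?_
      rw [abs_mul, h4, one_mul]
      linarith

end Pool.Agent.Helper22.HG
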