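import Mathlib
import Pool.Agent.Helper22.HG.H4

set_option autoImplicit false
set_option synthInstance.maxHeartbeats 400000

open Filter Topology
open scoped ENNReal

namespace Pool.Agent.Helper22.HG

noncomputable abbrev X : Type := ↥Msub

instance : CompleteSpace X := Msub_closed.completeSpace_coe

instance : IsUniformAddGroup X := AddSubgroup.isUniformAddGroup Msub.toAddSubgroup

instance : TopologicalSpace.MetrizableSpace X :=
  (Topology.IsEmbedding.subtypeVal : Topology.IsEmbedding (Subtype.val : X → P)).metrizableSpace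

instance : (uniformity X).IsCountablyGenerated :=
  inferInstanceAs ((Filter.comap (fun q : X × X => ((q.1 : P), (q.2 : P))) (uniformity P)).IsCountablyGenerated)

instance : LocallyConvexSpace ℝ X :=
  Topology.IsInducing.locallyConvexSpace (𝕜 := ℝ) (f := Msub.subtype.restrictScalars ℝ)
    Topology.IsInducing.subtypeVal

noncomputable def T (z : ℂ) : X →L[ℂ] X :=
  ((Top z).comp Msub.subtypeL).codRestrict Msub (fun x => Top_M x.2 z)

theorem T_coe (z : ℂ) (x : X) : ((T z x : X) : P) = Top z x := rfl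

theorem T_zero : T 0 = ContinuousLinearMap.id ℂ X := by
  ext x : 1
  exact Subtype.ext (Top_zero x.2)

theorem T_add (z w : ℂ) : T (z + w) = (T z).comp (T w) := by
  ext x : 1
  exact Subtype.ext (Top_add x.2 z w)

theorem T_add_apply (z w : ℂ) (x : X) : T (z + w) x = T z (T w x) := by
  rw [T_add]; rfl

theorem T_quot (x : X) (z : ℂ) : ∃ v : X,
    Tendsto (fun h : ℂ => h⁻¹ • (T (z + h) x - T z x)) (𝓝[≠] (0 : ℂ)) (𝓝 v) := by
  obtain ⟨V, hV, hT⟩ := Q_lim x.2
  have h1 : Tendsto (fun h : ℂ => h⁻¹ • (T h x - x)) (𝓝[≠] (0:ℂ)) (𝓝 (⟨V, hV⟩ : X)) := by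
    rw [tendsto_subtype_rng]
    exact hT
  refine ⟨T z ⟨V, hV⟩, ?_⟩
  have h2 := ((T z).continuous.tendsto (⟨V, hV⟩ : X)).comp h1
  refine h2.congr ?_
  intro h
  show T z (h⁻¹ • (T h x - x)) = _
  rw [map_smul, map_sub, T_add_apply]

theorem T_cont (x : X) : Continuous (fun z : ℂ => T z x) := by
  rw [continuous_iff_continuousAt]
  intro z
  rw [continuousAt_iff_punctured_nhds]
  obtain ⟨v, hv⟩ := T_quot x z
  have h1 : Tendsto (fun h : ℂ => h) (𝓝[≠] (0:ℂ)) (𝓝 0) := tendsto_id.mono_left nhdsWithin_le_nhds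
  have h2 := (h1.smul hv).add_const (T z x)
  rw [zero_smul, zero_add] at h2
  have h3 : Tendsto (fun h : ℂ => T (z + h) x) (𝓝[≠] (0:ℂ)) (𝓝 (T z x)) := by
    refine h2.congr' ?_
    filter_upwards [self_mem_nhdsWithin] with h hh
    rw [smul_smul, mul_inv_cancel₀ hh, one_smul, sub_add_cancel]
  have h4 : Tendsto (fun w : ℂ => w - z) (𝓝[≠] z) (𝓝[≠] (0:ℂ)) := by
    apply tendsto_nhdsWithin_of_tendsto_nhds_of_eventually_within
    · have : Tendsto (fun w : ℂ => w - z) (𝓝 z) (𝓝 (z - z)) :=
        (continuous_id.sub continuous_const).tendsto z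
      rw [sub_self] at this
      exact this.mono_left nhdsWithin_le_nhds
    · filter_upwards [self_mem_nhdsWithin] with w hw
      exact sub_ne_zero.2 hw
  have h5 := h3.comp h4
  refine h5.congr ?_
  intro w
  show T (z + (w - z)) x = T w x
  rw [add_sub_cancel]

theorem T_iter (z : ℂ) (n : ℕ) (x : X) : (⇑(T z))^[n] x = T ((n : ℂ) * z) x := by
  induction n with
  | zero => simp [T_zero]
  | succ n ih =>
    rw [Function.iterate_succ_apply', ih, ← T_add_apply]
    congr 2
    push_cast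
    ring

noncomputable def ee (v : ℂ) : X := ⟨ev v, Sp_le (Submodule.subset_span ⟨v, rfl⟩)⟩

theorem T_e (z v : ℂ) : T z (ee v) = ee (v + z) := Subtype.ext (Top_ev z v)

theorem e_cont : Continuous ee := by
  have h := T_cont (ee 0)
  refine h.congr ?_
  intro z
  rw [T_e, zero_add]

theorem span_dense : Dense (Submodule.span ℂ (Set.range ee) : Set X) := by
  have hmap : Submodule.map Msub.subtype (Submodule.span ℂ (Set.range ee)) = Sp := by
    rw [Submodule.map_span, ← Set.range_comp]
    rfl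
  intro x
  rw [closure_subtype]
  have h1 : ((↑) '' (Submodule.span ℂ (Set.range ee) : Set X) : Set P) = (Sp : Set P) := by
    rw [← hmap]; rfl
  rw [h1]
  exact x.2

theorem separable : TopologicalSpace.SeparableSpace X := by
  have h1 : TopologicalSpace.IsSeparable (Set.range ee) := TopologicalSpace.isSeparable_range e_cont
  have h2 := h1.span (R := ℂ)
  have h3 := h2.closure
  rw [span_dense.closure_eq] at h3
  exact TopologicalSpace.isSeparable_univ_iff.1 h3

theorem birkhoff {Y : Type} [TopologicalSpace Y] [BaireSpace Y] [SecondCountableTopology Y]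
    [Nonempty Y] (f : Y → Y) (hf : Continuous f)
    (h : ∀ U V : Set Y, IsOpen U → U.Nonempty → IsOpen V → V.Nonempty →
      ∃ n : ℕ, ∃ x ∈ U, f^[n] x ∈ V) : ∃ y : Y, Dense (Set.range (fun n : ℕ => f^[n] y)) := by
  have hB := TopologicalSpace.countable_countableBasis Y
  have hbasis := TopologicalSpace.isBasis_countableBasis Y
  set B := TopologicalSpace.countableBasis Y with hBdef
  have hdense : Dense (⋂ V ∈ B, ⋃ n : ℕ, f^[n] ⁻¹' V) := by
    apply dense_biInter_of_isOpen
    · intro V hV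
      apply isOpen_iUnion
      intro n
      exact (hbasis.isOpen hV).preimage (hf.iterate n)
    · exact hB
    · intro V hV
      rw [dense_iff_inter_open]
      intro U hU hUne
      obtain ⟨n, x, hx1, hx2⟩ := h U V hU hUne (hbasis.isOpen hV)
        (TopologicalSpace.nonempty_of_mem_countableBasis hV)
      exact ⟨x, hx1, Set.mem_iUnion.2 ⟨n, hx2⟩⟩
  obtain ⟨y, hy⟩ := hdense.nonempty
  refine ⟨y, ?_⟩
  rw [hbasis.dense_iff]
  intro V hV hVne
  rw [Set.mem_iInter₂] at hy
  obtain ⟨n, hn⟩ := Set.mem_iUnion.1 (hy V hV)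
  exact ⟨f^[n] y, hn, n, rfl⟩

theorem smul_iter (a z : ℂ) (n : ℕ) (x : X) :
    (⇑(a • T z))^[n] x = a ^ n • T ((n : ℂ) * z) x := by
  induction n with
  | zero => simp [T_zero]
  | succ n ih =>
    rw [Function.iterate_succ_apply', ih]
    show a • T z (a ^ n • T ((n : ℂ) * z) x) = _
    rw [map_smul, ← T_add_apply, smul_smul]
    have h1 : z + (n : ℂ) * z = ((n + 1 : ℕ) : ℂ) * z := by
      push_cast; ring
    rw [h1, pow_succ, mul_comm a]

/-- the scalar estimate -/
theorem scal (z : ℂ) (hz : z ≠ 0) (M : ℝ) (hM : 1 ≤ M) :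
    Tendsto (fun N => M ^ (kk z N) * Real.exp (-(q N) ^ 2)) atTop (𝓝 0) := by
  obtain ⟨C, hC, hk⟩ := kk_le z hz
  have hL : 0 ≤ Real.log M := Real.log_nonneg hM
  have h1 : ∀ N, M ^ (kk z N) * Real.exp (-(q N) ^ 2) ≤ Real.exp (C * Real.log M * q N - q N ^ 2) := by
    intro N
    have h2 : M ^ (kk z N) = Real.exp (kk z N * Real.log M) := by
      rw [← Real.rpow_natCast, Real.rpow_def_of_pos (by linarith), mul_comm]
    rw [h2, ← Real.exp_add]
    apply Real.exp_le_exp.2
    have := mul_le_mul_of_nonneg_right (hk N) hL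
    nlinarith
  have h3 : Tendsto (fun N => C * Real.log M * q N - q N ^ 2) atTop atBot := by
    have h4 : (fun N => C * Real.log M * q N - q N ^ 2) = fun N => -(q N * (q N - C * Real.log M)) := by
      funext N; ring
    rw [h4]
    apply tendsto_neg_atTop_atBot.comp
    exact q_tendsto.atTop_mul_atTop₀ (tendsto_atTop_add_const_right _ _ q_tendsto)
  have h5 := Real.tendsto_exp_atBot.comp h3
  refine squeeze_zero (fun N => by positivity) h1 h5

theorem base_tendsto (a z : ℂ) (ha : a ≠ 0) (hz : z ≠ 0) (σ : ℝ) (hσ : σ = 1 ∨ σ = -1) (c : ℕ → ℂ)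
    (hc : ∃ M : ℝ, 1 ≤ M ∧ ∀ N, ‖c N‖ ≤ M ^ (kk z N)) :
    ∀ x ∈ Submodule.span ℂ (Set.range ee),
      Tendsto (fun N => c N • T (((σ * kk z N : ℝ) : ℂ) * z) x) atTop (𝓝 0) := by
  obtain ⟨M, hM, hcM⟩ := hc
  have hbase : ∀ v : ℂ, Tendsto (fun N => c N • T (((σ * kk z N : ℝ) : ℂ) * z) (ee v)) atTop (𝓝 0) := by
    intro v
    rw [tendsto_subtype_rng]
    apply tendsto_pi_nhds.2
    intro n
    show Tendsto (fun N => c N • (Top (((σ * kk z N : ℝ) : ℂ) * z) (ev v)) n) atTop (𝓝 0)
    obtain ⟨N₀, hN₀⟩ := decay z hz n v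
    apply squeeze_zero_norm' _ (scal z hz M hM)
    filter_upwards [eventually_ge_atTop N₀] with N hN
    rw [norm_smul]
    exact mul_le_mul (hcM N) (hN₀ N hN σ hσ) (norm_nonneg _) (by positivity)
  intro x hx
  induction hx using Submodule.span_induction with
  | mem x hx => obtain ⟨v, rfl⟩ := hx; exact hbase v
  | zero => simp
  | add x y _ _ hx hy =>
    have := hx.add hy
    rw [add_zero] at this
    refine this.congr (fun j => ?_)
    rw [map_add, smul_add]
  | smul b x _ hx =>
    have := hx.const_smul b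
    rw [smul_zero] at this
    refine this.congr (fun j => ?_)
    rw [map_smul, smul_comm]

theorem baireX : BaireSpace X := by
  let _ := UniformSpace.pseudoMetricSpace X
  infer_instance

theorem hypercyclic (a z : ℂ) (ha : a ≠ 0) (hz : z ≠ 0) :
    ∃ y : X, Dense (Set.range (fun n : ℕ => (⇑(a • T z))^[n] y)) := by
  have := separable
  have := baireX
  have : SecondCountableTopology X := UniformSpace.secondCountable_of_separable X
  apply birkhoff (⇑(a • T z)) (a • T z).continuous
  intro U V hU hUne hV hVne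
  obtain ⟨u, huU, hu⟩ := span_dense.inter_open_nonempty U hU hUne
  obtain ⟨v, hvV, hv⟩ := span_dense.inter_open_nonempty V hV hVne
  have hk1 := base_tendsto a z ha hz 1 (Or.inl rfl) (fun N => a ^ kk z N)
    ⟨max 1 ‖a‖, le_max_left _ _, fun N => by
      rw [norm_pow]
      exact pow_le_pow_left₀ (norm_nonneg _) (le_max_right _ _) _⟩ u hu
  have hk2 := base_tendsto a z ha hz (-1) (Or.inr rfl) (fun N => (a⁻¹) ^ kk z N)
    ⟨max 1 ‖a⁻¹‖, le_max_left _ _, fun N => by
      rw [norm_pow]
      exact pow_le_pow_left₀ (norm_nonneg _) (le_max_right _ _) _⟩ v hv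
  have h1 := hk2.const_add u
  rw [add_zero] at h1
  have h2 := hk1.add_const v
  rw [zero_add] at h2
  obtain ⟨j, hj1, hj2⟩ := ((h1.eventually (hU.mem_nhds huU)).and
    (h2.eventually (hV.mem_nhds hvV))).exists
  refine ⟨kk z j, _, hj1, ?_⟩
  rw [smul_iter, map_add, map_smul, smul_add, smul_smul, ← mul_pow, mul_inv_cancel₀ ha, one_pow,
    one_smul, ← T_add_apply]
  have e1 : (kk z j : ℂ) * z + ((((-1 : ℝ) * (kk z j : ℝ) : ℝ)) : ℂ) * z = 0 := by
    push_cast; ring
  have e2 : (((1 : ℝ) * (kk z j : ℝ) : ℝ) : ℂ) = (kk z j : ℂ) := by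
    push_cast; ring
  rw [e1, T_zero]
  rw [e2] at hj2
  exact hj2

end Pool.Agent.Helper22.HG
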