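import Mathlib
import Pool.Agent.Helper22.HG.H5

set_option autoImplicit false
set_option synthInstance.maxHeartbeats 400000

open Filter Topology MeasureTheory
open scoped ENNReal

namespace Pool.Agent.Helper22.HG

theorem lcs : @LocallyConvexSpace ℝ X _ _ _ (Module.complexToReal X) _ := by
  have h1 : LocallyConvexSpace ℝ X := inferInstance
  have h2 : (Submodule.module' Msub : Module ℝ X) = Module.complexToReal X := by
    apply Module.ext'
    intro r m
    apply Subtype.ext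
    funext n
    apply lp.ext
    funext w
    show r • ((m : P) n : Linf) w = (r : ℂ) • ((m : P) n : Linf) w
    rw [Complex.real_smul, smul_eq_mul]
  rw [← h2]
  exact h1

/-- volume of a union over the integers of an interval -/
theorem gapvol (S : ℕ → Set ℝ) (hS : ∀ n : ℕ, 1 ≤ n → volume (S n) ≤ ENNReal.ofReal (1 / n))
    {x y : ℝ} (hx : 0 < x) (hxy : x ≤ y) :
    volume (⋃ n ∈ {n : ℕ | x < n ∧ (n : ℝ) < y}, S n) ≤ ENNReal.ofReal ((y - x + 1) / x) := by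
  set F := Finset.Icc ⌈x⌉₊ ⌊y⌋₊ with hF
  have h1 : (⋃ n ∈ {n : ℕ | x < n ∧ (n : ℝ) < y}, S n) ⊆ ⋃ n ∈ F, S n := by
    apply Set.iUnion₂_mono'
    rintro n ⟨h1, h2⟩
    refine ⟨n, ?_, le_rfl⟩
    rw [hF, Finset.mem_Icc]
    exact ⟨Nat.ceil_le.2 h1.le, Nat.le_floor h2.le⟩
  refine (measure_mono h1).trans ((measure_biUnion_finset_le F S).trans ?_)
  have h2 : ∀ n ∈ F, volume (S n) ≤ ENNReal.ofReal (1 / x) := by
    intro n hn
    rw [hF, Finset.mem_Icc] at hn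
    have h3 : x ≤ n := Nat.ceil_le.1 hn.1
    have h4 : 1 ≤ n := by
      have : 0 < (n : ℝ) := lt_of_lt_of_le hx h3
      exact_mod_cast this
    refine (hS n h4).trans (ENNReal.ofReal_le_ofReal ?_)
    exact one_div_le_one_div_of_le hx h3
  refine (Finset.sum_le_card_nsmul F _ _ h2).trans ?_
  rw [nsmul_eq_mul, ← ENNReal.ofReal_natCast, ← ENNReal.ofReal_mul (Nat.cast_nonneg _)]
  apply ENNReal.ofReal_le_ofReal
  rw [mul_one_div]
  apply div_le_div_of_nonneg_right _ hx.le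
  rw [hF, Nat.card_Icc]
  rcases le_or_gt ⌈x⌉₊ (⌊y⌋₊ + 1) with h | h
  · rw [Nat.cast_sub h]
    push_cast
    have h3 := Nat.le_ceil x
    have h4 := Nat.floor_le (hx.le.trans hxy)
    linarith
  · rw [Nat.sub_eq_zero_of_le h.le]
    push_cast
    linarith

theorem q_exp (n : ℕ) : 100 * 2 ^ n ≤ q n := by
  induction n with
  | zero => simp [q]
  | succ n ih =>
    have := q_step n
    have := q_pos n
    rw [pow_succ]
    linarith

/-- total volume of the gaps with number `N` -/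
theorem gapN (S : ℕ → Set ℝ) (hS : ∀ n : ℕ, 1 ≤ n → volume (S n) ≤ ENNReal.ofReal (1 / n)) (N : ℕ) :
    volume ((⋃ n ∈ {n : ℕ | q N ^ 4 < n ∧ (n : ℝ) < q N ^ 4 + q N ^ 2}, S n) ∪
      ⋃ n ∈ {n : ℕ | q N - 2 * e N < n ∧ (n : ℝ) < q N + 2 * e N}, S n) ≤
      ENNReal.ofReal (1 / 10 * (1 / 2) ^ N) := by
  have c0 := q_ge N
  have c1 := e_le N
  have c3 := q_pos N
  have c4 := e_pos N
  refine (measure_union_le _ _).trans ?_
  refine (add_le_add (gapvol S hS (by positivity) (by nlinarith))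
    (gapvol S hS (x := q N - 2 * e N) (y := q N + 2 * e N) (by linarith) (by linarith))).trans ?_
  rw [← ENNReal.ofReal_add (by
    have : 0 < q N ^ 2 := by positivity
    apply div_nonneg _ (by positivity)
    linarith) (by
    apply div_nonneg _ (by linarith)
    linarith)]
  apply ENNReal.ofReal_le_ofReal
  rcases N with _ | N
  · simp only [q, e]
    norm_num
  · have d0 := q_ge N
    have d1 := q4 N
    have d2 := q2 N
    have d3 := q_exp N
    have d4 : q (N + 1) = q N ^ 8 := rfl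
    have d5 : e (N + 1) = q N ^ 4 + q N ^ 2 / 2 := rfl
    set Q := q N with hQ
    have Q0 : 0 < Q := by linarith
    have d6 : 0 < Q ^ 4 := by positivity
    have e1 : (q (N + 1) ^ 4 + q (N + 1) ^ 2 - q (N + 1) ^ 4 + 1) / q (N + 1) ^ 4 ≤ 2 / Q ^ 4 := by
      rw [d4, div_le_div_iff₀ (by positivity) d6]
      have f1 : 1 ≤ Q := by linarith
      have f2 : (1 : ℝ) ≤ (Q ^ 8) ^ 2 := one_le_pow₀ (one_le_pow₀ f1)
      have f3 : (Q ^ 8) ^ 2 * Q ^ 4 ≤ (Q ^ 8) ^ 4 := by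
        have : (Q ^ 8) ^ 2 * Q ^ 4 = Q ^ 20 := by ring
        rw [this, ← pow_mul]
        exact pow_le_pow_right₀ f1 (by norm_num)
      nlinarith
    have e2 : (q (N + 1) + 2 * e (N + 1) - (q (N + 1) - 2 * e (N + 1)) + 1) /
        (q (N + 1) - 2 * e (N + 1)) ≤ 18 / Q ^ 4 := by
      have g1 : q (N + 1) - 2 * e (N + 1) ≥ Q ^ 8 / 2 := by
        rw [d4] at c1
        rw [d4]
        linarith
      rw [div_le_div_iff₀ (by linarith) d6]
      have g2 : q (N + 1) + 2 * e (N + 1) - (q (N + 1) - 2 * e (N + 1)) + 1 ≤ 9 * Q ^ 4 := by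
        rw [d5]
        linarith
      have g3 : Q ^ 8 = Q ^ 4 * Q ^ 4 := by ring
      nlinarith
    have e3 : 20 / Q ^ 4 ≤ 1 / 10 * (1 / 2) ^ (N + 1) := by
      rw [div_le_iff₀ d6, one_div, one_div, inv_pow]
      have g1 : 2 ^ (N + 1) * 200 ≤ Q ^ 4 := by
        have g2 : Q ≤ Q ^ 2 := by nlinarith
        have g3 : (2 : ℝ) ^ (N + 1) = 2 * 2 ^ N := by ring
        rw [g3]
        linarith
      have g4 : (0 : ℝ) < 2 ^ (N + 1) := by positivity
      have g5 : (10 : ℝ)⁻¹ * (2 ^ (N + 1))⁻¹ * Q ^ 4 = Q ^ 4 / (10 * 2 ^ (N + 1)) := by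
        field_simp
      rw [g5, le_div_iff₀ (by positivity)]
      linarith
    have e4 : 20 / Q ^ 4 = 2 / Q ^ 4 + 18 / Q ^ 4 := by ring
    linarith

theorem exists_good (S : ℕ → Set ℝ) (hS : ∀ n : ℕ, 1 ≤ n → volume (S n) ≤ ENNReal.ofReal (1 / n)) :
    ∃ a ∈ Set.Icc (1 / 4 : ℝ) (1 / 2), ∀ n : ℕ, (-(n : ℂ)) ∉ AA → a ∉ S n := by
  by_contra hcon
  push Not at hcon
  set W : ℕ → Set ℝ := fun N => (⋃ n ∈ {n : ℕ | q N ^ 4 < n ∧ (n : ℝ) < q N ^ 4 + q N ^ 2}, S n) ∪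
      ⋃ n ∈ {n : ℕ | q N - 2 * e N < n ∧ (n : ℝ) < q N + 2 * e N}, S n with hW
  have h1 : Set.Icc (1 / 4 : ℝ) (1 / 2) ⊆ ⋃ N, W N := by
    intro a ha
    obtain ⟨n, hn, hna⟩ := hcon a ha
    have h2 : ∃ N, (q N ^ 4 < n ∧ (n : ℝ) < q N ^ 4 + q N ^ 2) ∨ |(n : ℝ) - q N| < 2 * e N := by
      by_contra h3
      push Not at h3
      apply hn
      refine ⟨by simp, by simp, fun N => ⟨?_, ?_⟩⟩
      · rintro ⟨h4, h5⟩
        simp only [Complex.neg_re, Complex.natCast_re, neg_neg] at h4 h5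
        have := (h3 N).1 h4
        linarith
      · simp only [Complex.neg_re, Complex.natCast_re, neg_neg]
        exact (h3 N).2
    obtain ⟨N, h | h⟩ := h2
    · refine Set.mem_iUnion.2 ⟨N, Or.inl ?_⟩
      exact Set.mem_iUnion₂.2 ⟨n, h, hna⟩
    · refine Set.mem_iUnion.2 ⟨N, Or.inr ?_⟩
      rw [abs_lt] at h
      exact Set.mem_iUnion₂.2 ⟨n, ⟨by linarith [h.1], by linarith [h.2]⟩, hna⟩
  have h2 : volume (Set.Icc (1 / 4 : ℝ) (1 / 2)) ≤ ENNReal.ofReal (1 / 5) := by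
    refine (measure_mono h1).trans ((measure_iUnion_le _).trans ?_)
    refine (ENNReal.tsum_le_tsum fun N => gapN S hS N).trans ?_
    rw [← ENNReal.ofReal_tsum_of_nonneg (fun n => by positivity)
      ((summable_geometric_two).mul_left _), tsum_mul_left, tsum_geometric_two]
    apply ENNReal.ofReal_le_ofReal
    norm_num
  rw [Real.volume_Icc, ENNReal.ofReal_le_ofReal_iff (by norm_num)] at h2
  norm_num at h2

theorem bad_small (Y : ℕ → ℝ) (n : ℕ) (hn : 1 ≤ n) :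
    volume {a : ℝ | a ∈ Set.Icc (1 / 4 : ℝ) (1 / 2) ∧ 1 / 2 < a ^ n * Y n ∧ a ^ n * Y n < 3 / 2} ≤
      ENNReal.ofReal (1 / n) := by
  refine (Real.volume_le_diam _).trans ?_
  apply Metric.ediam_le
  have key : ∀ x y : ℝ, x ∈ Set.Icc (1 / 4 : ℝ) (1 / 2) → y ∈ Set.Icc (1 / 4 : ℝ) (1 / 2) → x ≤ y →
      1 / 2 < x ^ n * Y n → y ^ n * Y n < 3 / 2 → y - x ≤ 1 / n := by
    intro x y hx hy hxy h1 h2
    have x0 : 0 < x := by linarith [hx.1]
    have hn0 : (0 : ℝ) < n := by exact_mod_cast hn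
    by_contra hcon
    push Not at hcon
    have hY : 0 < Y n := by
      by_contra hY
      push Not at hY
      have : x ^ n * Y n ≤ 0 := mul_nonpos_of_nonneg_of_nonpos (by positivity) hY
      linarith
    -- Bernoulli
    have h3 : 1 + (n : ℝ) * ((y - x) / x) ≤ (1 + (y - x) / x) ^ n :=
      one_add_mul_le_pow (by
        have : 0 ≤ (y - x) / x := div_nonneg (by linarith) x0.le
        linarith) n
    have h4 : 1 + (y - x) / x = y / x := by field_simp; ring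
    rw [h4, div_pow, le_div_iff₀ (by positivity)] at h3
    have h5 : 2 < (n : ℝ) * ((y - x) / x) := by
      rw [div_lt_iff₀ hn0] at hcon
      rw [← mul_div_assoc, lt_div_iff₀ x0]
      have := hx.2
      linarith
    have h6 : 3 * x ^ n < y ^ n := by
      have : 0 < x ^ n := by positivity
      nlinarith
    have h7 : 3 * x ^ n * Y n < y ^ n * Y n := mul_lt_mul_of_pos_right h6 hY
    linarith
  rintro x ⟨hx, hx1, hx2⟩ y ⟨hy, hy1, hy2⟩
  rw [edist_dist]
  apply ENNReal.ofReal_le_ofReal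
  rw [Real.dist_eq]
  rcases le_total x y with h | h
  · rw [abs_sub_comm, abs_of_nonneg (by linarith)]
    exact key x y hx hy h hx1 hy2
  · rw [abs_of_nonneg (by linarith)]
    exact key y x hy hx h hy1 hx2

theorem phi_cont : Continuous (fun x : X => (x : P) 0 0) := (eval_cont 0 0).comp continuous_subtype_val

theorem phi_surj : Function.Surjective (fun x : X => (x : P) 0 0) := by
  intro c
  refine ⟨(c / f0 0) • ee 0, ?_⟩
  show (c / f0 0) * ((ev 0 : P) 0 0) = c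
  rw [ev_isJ 0 0 0, if_pos (mem_A_of_not zero_mem 0)]
  beta_reduce
  rw [add_zero, div_mul_cancel₀ _ f0_zero]

theorem phi_iter (a : ℂ) (y : X) (n : ℕ) :
    (((⇑(a • T (-1)))^[n] y : X) : P) 0 0 = a ^ n * (y : P) n (-(n : ℂ)) := by
  rw [smul_iter]
  show a ^ n * (Top ((n : ℂ) * (-1)) (y : P)) 0 0 = _
  rw [Top_apply, if_pos (mem_A_of_not zero_mem 0)]
  have h1 : ⌈‖(n : ℂ) * (-1)‖⌉₊ = n := by simp
  have h2 : (0 : ℂ) + (n : ℂ) * (-1) = -(n : ℂ) := by ring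
  rw [h1, h2, zero_add]

/-- no vector is hypercyclic for all operators `a T_{-1}`, `a ∈ [1/4, 1/2]` -/
theorem no_common (y : X) : ∃ a : ℝ, a ∈ Set.Icc (1 / 4 : ℝ) (1 / 2) ∧
    ¬ Dense (Set.range (fun n : ℕ => (⇑((a : ℂ) • T (-1)))^[n] y)) := by
  set Y : ℕ → ℝ := fun n => ‖(y : P) n (-(n : ℂ))‖ with hY
  obtain ⟨a, ha, hgood⟩ := exists_good
    (fun n => {a : ℝ | a ∈ Set.Icc (1 / 4 : ℝ) (1 / 2) ∧ 1 / 2 < a ^ n * Y n ∧ a ^ n * Y n < 3 / 2})
    (fun n hn => bad_small Y n hn)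
  refine ⟨a, ha, fun hD => ?_⟩
  have ha0 : 0 < a := by linarith [ha.1]
  set w : ℕ → ℂ := fun n => (((⇑((a : ℂ) • T (-1)))^[n] y : X) : P) 0 0 with hw
  have hwd : DenseRange w := by
    have h1 : DenseRange (fun n : ℕ => (⇑((a : ℂ) • T (-1)))^[n] y) := hD
    exact (phi_surj.denseRange).comp h1 phi_cont
  have hwn : ∀ n, ‖w n‖ = a ^ n * Y n := by
    intro n
    show ‖(((⇑((a : ℂ) • T (-1)))^[n] y : X) : P) 0 0‖ = _
    rw [phi_iter, norm_mul, norm_pow, Complex.norm_real, Real.norm_eq_abs, abs_of_pos ha0]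
  have hB : ∀ n : ℕ, (-(n : ℂ)) ∈ AA → Y n ≤ ‖(y : P) 0‖ := by
    intro n hn
    show ‖(y : P) n (-(n : ℂ))‖ ≤ _
    rw [compat y.2 (mem_A_of_not hn n) (mem_A_of_not hn 0)]
    exact lp.norm_apply_le_norm (by simp) _ _
  have hlim : Tendsto (fun n : ℕ => (1 / 2 : ℝ) ^ n * ‖(y : P) 0‖) atTop (𝓝 0) := by
    have := (tendsto_pow_atTop_nhds_zero_of_lt_one (r := (1 : ℝ) / 2) (by norm_num)
      (by norm_num)).mul_const ‖(y : P) 0‖
    rwa [zero_mul] at this
  obtain ⟨n₀, hn₀⟩ := (hlim.eventually_lt_const (show (0 : ℝ) < 1 / 2 by norm_num)).exists_forall_of_atTop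
  have hfar : ∀ n, n₀ ≤ n → w n ∉ Metric.ball (1 : ℂ) (1 / 2) := by
    intro n hn hball
    rw [mem_ball_iff_norm] at hball
    have h1 : |‖w n‖ - ‖(1 : ℂ)‖| ≤ ‖w n - 1‖ := abs_norm_sub_norm_le _ _
    rw [norm_one] at h1
    have h2 := abs_lt.1 (lt_of_le_of_lt h1 hball)
    by_cases hA : (-(n : ℂ)) ∈ AA
    · have h3 := hB n hA
      have h4 : a ^ n ≤ (1 / 2) ^ n := pow_le_pow_left₀ ha0.le ha.2 n
      have h5 : a ^ n * Y n ≤ (1 / 2) ^ n * ‖(y : P) 0‖ :=
        mul_le_mul h4 h3 (norm_nonneg _) (by positivity)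
      have h6 := hn₀ n hn
      rw [hwn] at h2
      linarith [h2.1]
    · apply hgood n hA
      rw [hwn] at h2
      exact ⟨ha, by linarith [h2.1], by linarith [h2.2]⟩
  have h3 : Dense (Set.range w \ ((Finset.range n₀).image w : Finset ℂ)) :=
    Dense.sdiff_finset hwd _
  obtain ⟨x, hx1, ⟨n, rfl⟩, hx2⟩ := h3.inter_open_nonempty (Metric.ball (1 : ℂ) (1 / 2))
    Metric.isOpen_ball ⟨1, Metric.mem_ball_self (by norm_num)⟩
  rcases lt_or_ge n n₀ with h | h
  · apply hx2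
    simp only [Finset.coe_image, Finset.coe_range, Set.mem_image, Set.mem_Iio]
    exact ⟨n, h, rfl⟩
  · exact hfar n h hx1

end Pool.Agent.Helper22.HG
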